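import Mathlib

set_option autoImplicit false

/-!
The numerical inequalities for the local lemma.
-/

namespace Pool.Agent.H9.TE

/-- The number of binary digits of `m`. -/
def lg (m : ℕ) : ℕ := Nat.log 2 m + 1

/-- The basic parameter. -/
def BB (m : ℕ) : ℕ := 400 * m * lg m

/-- The least size of the blocks. -/
def LL (m : ℕ) : ℕ := 240 * BB m * m ^ 2

/-- The largest size of the blocks. -/
def HH (m : ℕ) : ℕ := 240 * BB m * m ^ 2 + 6 * BB m * m

/-- The bound for the number of conflicts. -/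
def DDc (m : ℕ) : ℕ := 3 * BB m * m

/-- The number of matchings. -/
def RR (m : ℕ) : ℕ := LL m - 2 * DDc m

theorem lt_two_pow_lg (m : ℕ) : m < 2 ^ lg m := Nat.lt_pow_succ_log_self (by norm_num) m

theorem lg_pos (m : ℕ) : 1 ≤ lg m := Nat.le_add_left _ _

theorem exp_big (m : ℕ) (hm : 1 ≤ m) :
    4 * (m : ℝ) ^ 2 * (HH m : ℝ) ^ 4 ≤ Real.exp ((BB m : ℝ) / (6 * m)) := by
  have hm' : (1 : ℝ) ≤ m := by exact_mod_cast hm
  have hm0 : (0 : ℝ) < m := by linarith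
  have hl : (1 : ℝ) ≤ lg m := by exact_mod_cast lg_pos m
  have e1 : (BB m : ℝ) / (6 * m) = 200 / 3 * (lg m : ℝ) := by
    unfold BB
    push_cast
    field_simp
    ring
  have e2 : (HH m : ℝ) ≤ 98400 * (m : ℝ) ^ 3 * lg m := by
    unfold HH BB
    push_cast
    have h1 : (m : ℝ) ^ 2 ≤ (m : ℝ) ^ 3 := pow_le_pow_right₀ hm' (by norm_num)
    have h2 : (m : ℝ) ^ 2 * lg m ≤ (m : ℝ) ^ 3 * lg m :=
      mul_le_mul_of_nonneg_right h1 (by linarith)
    nlinarith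
  have hH0 : (0 : ℝ) ≤ HH m := Nat.cast_nonneg _
  have h2 : (m : ℝ) ≤ 2 ^ lg m := by
    have := (lt_two_pow_lg m).le
    exact_mod_cast this
  have h3 : (lg m : ℝ) ≤ 2 ^ lg m := by
    have := (Nat.lt_two_pow_self (n := lg m)).le
    exact_mod_cast this
  have h4 : (400000000000000000000 : ℝ) ≤ (2 ^ lg m) ^ 69 := by
    have h5 : (2 : ℝ) ≤ 2 ^ lg m := by
      calc (2 : ℝ) = 2 ^ 1 := by norm_num
        _ ≤ 2 ^ lg m := pow_le_pow_right₀ (by norm_num) (lg_pos m)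
    calc (400000000000000000000 : ℝ) ≤ 2 ^ 69 := by norm_num
      _ ≤ (2 ^ lg m) ^ 69 := pow_le_pow_left₀ (by norm_num) h5 _
  have h6 : 4 * (m : ℝ) ^ 2 * (HH m : ℝ) ^ 4 ≤ (2 ^ lg m) ^ 87 := by
    have a1 : (HH m : ℝ) ^ 4 ≤ (98400 * (m : ℝ) ^ 3 * lg m) ^ 4 := pow_le_pow_left₀ hH0 e2 4
    have a2 : (m : ℝ) ^ 14 ≤ (2 ^ lg m) ^ 14 := pow_le_pow_left₀ hm0.le h2 14
    have a3 : (lg m : ℝ) ^ 4 ≤ (2 ^ lg m) ^ 4 := pow_le_pow_left₀ (by linarith) h3 4
    calc 4 * (m : ℝ) ^ 2 * (HH m : ℝ) ^ 4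
        ≤ 4 * (m : ℝ) ^ 2 * (98400 * (m : ℝ) ^ 3 * lg m) ^ 4 :=
          mul_le_mul_of_nonneg_left a1 (by positivity)
      _ = 4 * 98400 ^ 4 * ((m : ℝ) ^ 14 * (lg m : ℝ) ^ 4) := by ring
      _ ≤ 400000000000000000000 * ((2 ^ lg m) ^ 14 * (2 ^ lg m) ^ 4) := by
          apply mul_le_mul (by norm_num) _ (by positivity) (by norm_num)
          exact mul_le_mul a2 a3 (by positivity) (by positivity)
      _ ≤ (2 ^ lg m) ^ 69 * ((2 ^ lg m) ^ 14 * (2 ^ lg m) ^ 4) :=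
          mul_le_mul_of_nonneg_right h4 (by positivity)
      _ = (2 ^ lg m) ^ 87 := by ring
  refine h6.trans ?_
  rw [e1, ← pow_mul]
  have h7 : (2 : ℝ) ≤ Real.exp (7 / 10) := by
    have h8 := Real.log_two_lt_d9
    rw [← Real.log_le_iff_le_exp (by norm_num)]
    linarith
  calc (2 : ℝ) ^ (lg m * 87) ≤ Real.exp (7 / 10) ^ (lg m * 87) :=
        pow_le_pow_left₀ (by norm_num) h7 _
    _ = Real.exp (609 / 10 * lg m) := by
        rw [← Real.exp_nat_mul]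
        congr 1
        push_cast
        ring
    _ ≤ _ := Real.exp_le_exp.2 (by nlinarith)

theorem two_DDc_le (m : ℕ) : 2 * DDc m ≤ LL m := by
  unfold DDc LL
  rcases Nat.eq_zero_or_pos m with h | h
  · subst h; simp
  · have : BB m * m ≤ BB m * m ^ 2 := Nat.mul_le_mul_left _ (by nlinarith)
    nlinarith

theorem three_DDc_le (m : ℕ) : 3 * DDc m ≤ LL m := by
  unfold DDc LL
  rcases Nat.eq_zero_or_pos m with h | h
  · subst h; simp
  · have : BB m * m ≤ BB m * m ^ 2 := Nat.mul_le_mul_left _ (by nlinarith)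
    nlinarith

theorem RR_cast (m : ℕ) : (RR m : ℝ) = 240 * BB m * (m : ℝ) ^ 2 - 6 * BB m * m := by
  unfold RR
  rw [Nat.cast_sub (two_DDc_le m)]
  unfold DDc LL
  push_cast
  ring

theorem BB_pos (m : ℕ) (hm : 1 ≤ m) : (400 : ℝ) * m ≤ BB m := by
  have hm' : (1 : ℝ) ≤ m := by exact_mod_cast hm
  unfold BB
  push_cast
  have hl : (1 : ℝ) ≤ lg m := by exact_mod_cast lg_pos m
  nlinarith

theorem HH_cast (m : ℕ) : (HH m : ℝ) = 240 * BB m * (m : ℝ) ^ 2 + 6 * BB m * m := by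
  unfold HH
  push_cast
  ring

theorem RR_ge (m : ℕ) (hm : 1 ≤ m) : (234 : ℝ) * BB m * (m : ℝ) ^ 2 ≤ RR m := by
  have hm' : (1 : ℝ) ≤ m := by exact_mod_cast hm
  have hB := BB_pos m hm
  have hB0 : (0 : ℝ) < BB m := by nlinarith
  rw [RR_cast]
  have : (BB m : ℝ) * m ≤ BB m * (m : ℝ) ^ 2 :=
    mul_le_mul_of_nonneg_left (le_self_pow₀ hm' (by norm_num)) hB0.le
  nlinarith

theorem RR_pos (m : ℕ) (hm : 1 ≤ m) : 0 < RR m := by
  have hm' : (1 : ℝ) ≤ m := by exact_mod_cast hm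
  have hB := BB_pos m hm
  have hB0 : (0 : ℝ) < BB m := by nlinarith
  have h := RR_ge m hm
  have h2 : (0 : ℝ) < 234 * BB m * (m : ℝ) ^ 2 := by positivity
  have : (0 : ℝ) < RR m := lt_of_lt_of_le h2 h
  exact_mod_cast this

theorem ratio_le (m : ℕ) (hm : 1 ≤ m) : (HH m : ℝ) / RR m ≤ 1 + 1 / (19 * m) := by
  have hm' : (1 : ℝ) ≤ m := by exact_mod_cast hm
  have hB := BB_pos m hm
  have hB0 : (0 : ℝ) < BB m := by nlinarith
  have hR0 : (0 : ℝ) < RR m := by exact_mod_cast RR_pos m hm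
  rw [div_le_iff₀ hR0, RR_cast, HH_cast]
  have hm0 : (0 : ℝ) < m := by linarith
  have e : (1 + 1 / (19 * (m : ℝ))) * (240 * BB m * (m : ℝ) ^ 2 - 6 * BB m * m) =
      240 * BB m * (m : ℝ) ^ 2 + 6 * BB m * m + BB m * ((240 / 19 - 12) * m - 6 / 19) := by
    field_simp
    ring
  rw [e]
  nlinarith

/-- The failure probability. -/
noncomputable def P0 (m : ℕ) : ℝ := 1 / (4 * (m : ℝ) ^ 2 * (HH m : ℝ) ^ 4)

theorem P0_ge (m : ℕ) (hm : 1 ≤ m) : Real.exp (-((BB m : ℝ) / (6 * m))) ≤ P0 m := by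
  have h := exp_big m hm
  have hm' : (1 : ℝ) ≤ m := by exact_mod_cast hm
  have hB := BB_pos m hm
  have hB0 : (0 : ℝ) < BB m := by nlinarith
  have hK0 : (0 : ℝ) < HH m := by rw [HH_cast]; positivity
  unfold P0
  rw [Real.exp_neg, ← one_div]
  exact one_div_le_one_div_of_le (by positivity) h

theorem num_old (m : ℕ) (hm : 1 ≤ m) (s0 : ℕ) (hs : (BB m : ℝ) ≤ s0) :
    Real.exp ((HH m : ℝ) / RR m) ≤ P0 m * 2 ^ s0 := by
  have hm' : (1 : ℝ) ≤ m := by exact_mod_cast hm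
  have hm0 : (0 : ℝ) < m := by linarith
  have hB := BB_pos m hm
  have h1 := ratio_le m hm
  have h2 := P0_ge m hm
  have h3 : Real.exp ((s0 : ℝ) / 2) ≤ 2 ^ s0 := by
    have e1 : Real.exp (1 / 2) ≤ 2 := by
      have := Real.exp_one_lt_d9
      have e2 : Real.exp (1 / 2) * Real.exp (1 / 2) = Real.exp 1 := by
        rw [← Real.exp_add]; norm_num
      nlinarith [Real.exp_pos (1 / 2)]
    have e3 : Real.exp ((s0 : ℝ) / 2) = Real.exp (1 / 2) ^ s0 := by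
      rw [← Real.exp_nat_mul]; ring_nf
    rw [e3]
    exact pow_le_pow_left₀ (Real.exp_pos _).le e1 _
  have h4 : Real.exp ((HH m : ℝ) / RR m) ≤
      Real.exp (-((BB m : ℝ) / (6 * m))) * Real.exp ((s0 : ℝ) / 2) := by
    rw [← Real.exp_add]
    apply Real.exp_le_exp.2
    have e1 : 1 / (19 * (m : ℝ)) ≤ 1 := by
      rw [div_le_one (by positivity)]; linarith
    have e2 : (BB m : ℝ) / (6 * m) ≤ BB m / 6 := by
      apply div_le_div_of_nonneg_left (by nlinarith) (by norm_num) (by linarith)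
    nlinarith
  refine h4.trans (mul_le_mul h2 h3 (Real.exp_pos _).le ?_)
  exact (Real.exp_pos _).le.trans h2

theorem num_new (m : ℕ) (hm : 1 ≤ m) (Δ : ℝ) (hΔ : (BB m : ℝ) * m ≤ Δ) (s1 : ℕ)
    (hs : Δ * (1 + 1 / m) ≤ s1) :
    Real.exp (1 / (2 * m) * (HH m * Δ / RR m + 1)) ≤ P0 m * (1 + 1 / (2 * (m : ℝ))) ^ s1 := by
  have hm' : (1 : ℝ) ≤ m := by exact_mod_cast hm
  have hm0 : (0 : ℝ) < m := by linarith
  have hB := BB_pos m hm
  have hB0 : (0 : ℝ) < BB m := by nlinarith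
  have hΔ0 : 0 < Δ := lt_of_lt_of_le (by positivity) hΔ
  have h1 := ratio_le m hm
  have h2 := P0_ge m hm
  have hlog := Real.le_log_one_add_of_nonneg (x := 1 / (2 * (m : ℝ))) (by positivity)
  have hlog' : 2 / (4 * (m : ℝ) + 1) ≤ Real.log (1 + 1 / (2 * (m : ℝ))) := by
    refine le_trans (le_of_eq ?_) hlog
    field_simp
    ring
  have h3 : Real.exp (Δ * (1 + 1 / m) * (2 / (4 * (m : ℝ) + 1))) ≤
      (1 + 1 / (2 * (m : ℝ))) ^ s1 := by
    rw [← Real.exp_log (show (0 : ℝ) < (1 + 1 / (2 * (m : ℝ))) ^ s1 by positivity), Real.log_pow]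
    apply Real.exp_le_exp.2
    exact mul_le_mul hs hlog' (by positivity) (by positivity)
  have h4 : Real.exp (1 / (2 * m) * (HH m * Δ / RR m + 1)) ≤
      Real.exp (-((BB m : ℝ) / (6 * m))) *
        Real.exp (Δ * (1 + 1 / m) * (2 / (4 * (m : ℝ) + 1))) := by
    rw [← Real.exp_add]
    apply Real.exp_le_exp.2
    have e1 : (HH m : ℝ) * Δ / RR m ≤ (1 + 1 / (19 * m)) * Δ := by
      have := mul_le_mul_of_nonneg_right h1 hΔ0.le
      calc (HH m : ℝ) * Δ / RR m = (HH m : ℝ) / RR m * Δ := by ring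
        _ ≤ _ := this
    have e2 : (1 : ℝ) ≤ 1 / (19 * m) * Δ := by
      have : 1 / (19 * (m : ℝ)) * (BB m * m) = BB m / 19 := by
        field_simp
      have h5 : 1 / (19 * (m : ℝ)) * (BB m * m) ≤ 1 / (19 * m) * Δ :=
        mul_le_mul_of_nonneg_left hΔ (by positivity)
      rw [this] at h5
      nlinarith
    have e3 : 1 / (2 * (m : ℝ)) * (HH m * Δ / RR m + 1) ≤
        1 / (2 * m) * ((1 + 2 / (19 * m)) * Δ) := by
      apply mul_le_mul_of_nonneg_left _ (by positivity)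
      have : (2 : ℝ) / (19 * m) = 1 / (19 * m) + 1 / (19 * m) := by ring
      rw [this]
      linarith
    have e4 : (BB m : ℝ) / (6 * m) ≤ Δ / (6 * (m : ℝ) ^ 2) := by
      have : (BB m : ℝ) / (6 * m) = (BB m * m) / (6 * (m : ℝ) ^ 2) := by
        field_simp
      rw [this]
      exact div_le_div_of_nonneg_right hΔ (by positivity)
    have e5 : 1 / (2 * (m : ℝ)) * ((1 + 2 / (19 * m)) * Δ) + Δ / (6 * (m : ℝ) ^ 2) ≤
        Δ * (1 + 1 / m) * (2 / (4 * (m : ℝ) + 1)) := by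
      have e6 : Δ * (1 + 1 / m) * (2 / (4 * (m : ℝ) + 1)) -
          (1 / (2 * (m : ℝ)) * ((1 + 2 / (19 * m)) * Δ) + Δ / (6 * (m : ℝ) ^ 2)) =
          Δ * (2 * (m + 1) * m * 114 - (57 * m + 6 + 19) * (4 * m + 1)) /
            (114 * (m : ℝ) ^ 2 * (4 * m + 1)) := by
        field_simp
        ring
      have e7 : 0 ≤ Δ * (2 * (m + 1) * m * 114 - (57 * m + 6 + 19) * (4 * m + 1)) /
            (114 * (m : ℝ) ^ 2 * (4 * m + 1)) := by
        apply div_nonneg _ (by positivity)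
        apply mul_nonneg hΔ0.le
        nlinarith
      linarith
    linarith
  refine h4.trans (mul_le_mul h2 h3 (Real.exp_pos _).le ?_)
  exact (Real.exp_pos _).le.trans h2

theorem num_lll (m : ℕ) (hm : 1 ≤ m) :
    4 * (m * ((HH m : ℝ) * HH m) * P0 m) * (HH m * (m * HH m)) ≤ 1 := by
  have hm' : (1 : ℝ) ≤ m := by exact_mod_cast hm
  have hm0 : (0 : ℝ) < m := by linarith
  have hB := BB_pos m hm
  have hB0 : (0 : ℝ) < BB m := by nlinarith
  have hK0 : (0 : ℝ) < HH m := by rw [HH_cast]; positivity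
  unfold P0
  apply le_of_eq
  field_simp

end Pool.Agent.H9.TE
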