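import Pool.Agent.H9.TE.Assembly

set_option autoImplicit false

/-!
Cutting fibres into blocks of given sizes, and the copies of a tree obtained from a labelling of
the edges.
-/

namespace Pool.Agent.H9.TE

open Finset

/-- The fibres of `f` on the elements with the property `P` are cut into blocks of given sizes. -/
theorem blocksV {D U : Type} [Fintype D] [DecidableEq D] [DecidableEq U] (f : D → U)
    (P : D → Prop) [DecidablePred P] (q : U → ℕ) (s : U → ℕ → ℕ)
    (h : ∀ u, ∑ b ∈ range (q u), s u b = (univ.filter (fun d => P d ∧ f d = u)).card) :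
    ∃ β : D → ℕ, (∀ d, P d → β d < q (f d)) ∧
      ∀ u b, b < q u → (univ.filter (fun d => P d ∧ f d = u ∧ β d = b)).card = s u b := by
  classical
  have hE : ∀ u, Nonempty ({d // P d ∧ f d = u} ≃ (Σ b : Fin (q u), Fin (s u b))) := by
    intro u
    refine ⟨Fintype.equivOfCardEq ?_⟩
    rw [Fintype.card_subtype, Fintype.card_sigma, ← h u]
    simp only [Fintype.card_fin]
    exact (Fin.sum_univ_eq_sum_range (fun b => s u b) (q u)).symm
  have E := fun u => Classical.choice (hE u)
  let β : D → ℕ := fun d => if hd : P d then ((E (f d) ⟨d, hd, rfl⟩).1 : ℕ) else 0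
  have hβ : ∀ d u (hd : P d ∧ f d = u), β d = ((E u ⟨d, hd⟩).1 : ℕ) := by
    rintro d u ⟨hd, rfl⟩
    simp only [β, dif_pos hd]
  refine ⟨β, ?_, ?_⟩
  · intro d hd
    rw [hβ d (f d) ⟨hd, rfl⟩]
    exact (E (f d) ⟨d, hd, rfl⟩).1.isLt
  · intro u b hb
    have h1 : (univ.filter (fun d => P d ∧ f d = u ∧ β d = b)).card =
        (univ : Finset (Fin (s u b))).card := by
      symm
      refine card_bij (fun i _ => ((E u).symm ⟨⟨b, hb⟩, i⟩).1) ?_ ?_ ?_
      · intro i _
        have h2 := ((E u).symm ⟨⟨b, hb⟩, i⟩).2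
        rw [mem_filter]
        refine ⟨mem_univ _, h2.1, h2.2, ?_⟩
        rw [hβ _ u h2, Subtype.coe_eta, Equiv.apply_symm_apply]
      · intro i _ i' _ h2
        have h3 := (E u).symm.injective (Subtype.ext h2)
        simpa using h3
      · intro d hd
        rw [mem_filter] at hd
        obtain ⟨_, h2, h3, h4⟩ := hd
        rw [hβ d u ⟨h2, h3⟩] at h4
        generalize hz : E u ⟨d, h2, h3⟩ = z at h4
        obtain ⟨z1, z2⟩ := z
        have h5 : z1 = ⟨b, hb⟩ := Fin.ext h4
        subst h5
        refine ⟨z2, mem_univ _, ?_⟩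
        rw [← hz, Equiv.symm_apply_apply]
    rw [h1, card_univ, Fintype.card_fin]

/-- Large numbers are sums of block sizes. -/
theorem sizes (m n : ℕ) (hm : 1 ≤ m) (h : n = 0 ∨ 40 * m * LL m ≤ n) :
    ∃ (q : ℕ) (s : ℕ → ℕ), ∑ b ∈ range q, s b = n ∧ ∀ b, LL m ≤ s b ∧ s b ≤ HH m := by
  rcases h with h | h
  · exact ⟨0, fun _ => LL m, by simp [h], fun _ => ⟨le_rfl, LL_le_HH⟩⟩
  · have hL := LL_pos hm
    set q := n / LL m with hq
    set r := n % LL m with hr
    have hqge : 40 * m ≤ q := by
      rw [hq, Nat.le_div_iff_mul_le hL]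
      exact h
    have hq0 : 0 < q := by omega
    have hrlt : r < LL m := Nat.mod_lt _ hL
    have hL2 : LL m = 40 * m * (6 * BB m * m) := by
      unfold LL
      ring
    have hH2 : HH m = LL m + 6 * BB m * m := by
      unfold HH LL
      ring
    have hr2 : r < q * (6 * BB m * m) := by
      rw [hL2] at hrlt
      exact lt_of_lt_of_le hrlt (Nat.mul_le_mul_right _ hqge)
    have hrq : r / q < 6 * BB m * m := by
      rw [Nat.div_lt_iff_lt_mul hq0, mul_comm]
      exact hr2
    refine ⟨q, fun b => LL m + (r / q + if b < r % q then 1 else 0), ?_, ?_⟩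
    · rw [sum_add_distrib, sum_const, card_range, smul_eq_mul, sum_add_distrib, sum_const,
        card_range, smul_eq_mul, ← card_filter]
      have h1 : ((range q).filter (fun b => b < r % q)).card = r % q := by
        have h2 : (range q).filter (fun b => b < r % q) = range (r % q) := by
          ext b
          simp only [mem_filter, mem_range]
          have := Nat.mod_lt r hq0
          omega
        rw [h2, card_range]
      rw [h1, Nat.div_add_mod, mul_comm q (LL m)]
      exact Nat.div_add_mod n (LL m)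
    · intro b
      refine ⟨Nat.le_add_right _ _, ?_⟩
      beta_reduce
      rw [hH2]
      split_ifs <;> omega

/-- The copies of the tree obtained from a labelling of the edges in which every role of every
vertex has either no copies or many copies. -/
theorem master {V D : Type} [Fintype V] [DecidableEq V] [Fintype D] [DecidableEq D]
    {par : ℕ → ℕ} {m : ℕ} (hm : 1 ≤ m) (hpar : ∀ j, 1 ≤ j → j ≤ m → par j < j)
    (lab : D → ℕ) (hlab : ∀ d, 1 ≤ lab d ∧ lab d ≤ m) (pend cend : D → V) (N : ℕ → V → ℕ)
    (hp : ∀ j, 1 ≤ j → j ≤ m → ∀ v,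
      (univ.filter (fun d => lab d = j ∧ pend d = v)).card = N (par j) v)
    (hc : ∀ j, 1 ≤ j → j < m → ∀ v,
      (univ.filter (fun d => lab d = j ∧ cend d = v)).card = N j v)
    (hN : ∀ r, r < m → ∀ v, N r v = 0 ∨ 40 * m * LL m ≤ N r v)
    (hsimple : ∀ d d', lab d = lab d' → pend d = pend d' → cend d = cend d' → d = d')
    (hloop : ∀ d, pend d ≠ cend d) :
    ∃ (I : Type) (_ : Fintype I) (φ : ℕ → I → V) (x : ℕ → I → D),
      (∀ r, 1 ≤ r → r ≤ m → ∀ i, lab (x r i) = r ∧ pend (x r i) = φ (par r) i ∧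
        cend (x r i) = φ r i) ∧
      (∀ r, 1 ≤ r → r ≤ m → Function.Injective (x r)) ∧
      (∀ r, 1 ≤ r → r ≤ m → ∀ d, lab d = r → ∃ i, x r i = d) ∧
      ∀ i, ∀ r ≤ m, ∀ r' ≤ m, φ r i = φ r' i → r = r' := by
  classical
  have hsz : ∀ (r : ℕ) (v : V), ∃ (q : ℕ) (s : ℕ → ℕ),
      (r < m → ∑ b ∈ range q, s b = N r v) ∧ ∀ b, LL m ≤ s b ∧ s b ≤ HH m := by
    intro r v
    by_cases hr : r < m
    · obtain ⟨q, s, h1, h2⟩ := sizes m (N r v) hm (hN r hr v)
      exact ⟨q, s, fun _ => h1, h2⟩
    · exact ⟨0, fun _ => LL m, fun h => absurd h hr, fun _ => ⟨le_rfl, LL_le_HH⟩⟩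
  choose q s hqs hs using hsz
  obtain ⟨bp, hbp1, hbp2⟩ := blocksV (fun d => (lab d, pend d)) (fun _ => True)
    (fun u : ℕ × V => if 1 ≤ u.1 ∧ u.1 ≤ m then q (par u.1) u.2 else 0)
    (fun u => s (par u.1) u.2) (by
      rintro ⟨j, v⟩
      by_cases hj : 1 ≤ j ∧ j ≤ m
      · have hpj := hpar j hj.1 hj.2
        simp only [if_pos hj]
        rw [hqs (par j) v (by omega), ← hp j hj.1 hj.2 v]
        congr 1
        ext d
        simp only [mem_filter, mem_univ, true_and, Prod.mk.injEq]
      · simp only [if_neg hj, range_zero, sum_empty]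
        symm
        rw [card_eq_zero, filter_eq_empty_iff]
        rintro d _ ⟨_, h⟩
        rw [Prod.mk.injEq] at h
        exact hj (h.1 ▸ hlab d))
  obtain ⟨bc, hbc1, hbc2⟩ := blocksV (fun d => (lab d, cend d)) (fun d => lab d < m)
    (fun u : ℕ × V => if 1 ≤ u.1 ∧ u.1 < m then q u.1 u.2 else 0)
    (fun u => s u.1 u.2) (by
      rintro ⟨j, v⟩
      by_cases hj : 1 ≤ j ∧ j < m
      · simp only [if_pos hj]
        rw [hqs j v hj.2, ← hc j hj.1 hj.2 v]
        congr 1
        ext d
        simp only [mem_filter, mem_univ, true_and, Prod.mk.injEq]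
        constructor
        · rintro ⟨h, h'⟩
          exact ⟨by omega, h, h'⟩
        · rintro ⟨_, h, h'⟩
          exact ⟨h, h'⟩
      · simp only [if_neg hj, range_zero, sum_empty]
        symm
        rw [card_eq_zero, filter_eq_empty_iff]
        rintro d _ ⟨h', h⟩
        rw [Prod.mk.injEq] at h
        exact hj ⟨h.1 ▸ (hlab d).1, h.1 ▸ h'⟩)
  have memact : ∀ (r : ℕ) (x : V × ℕ),
      x ∈ (univ : Finset V).biUnion (fun v => (range (q r v)).image (fun b => (v, b))) ↔
        x.2 < q r x.1 := by
    intro r x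
    rw [mem_biUnion]
    constructor
    · rintro ⟨v, _, h⟩
      rw [mem_image] at h
      obtain ⟨b, hb, rfl⟩ := h
      exact mem_range.1 hb
    · intro h
      exact ⟨x.1, mem_univ _, mem_image.2 ⟨x.2, mem_range.2 h, rfl⟩⟩
  let S : Sys V D m (LL m) (HH m) :=
    { par := par
      lab := lab
      pe := fun d => (pend d, bp d)
      ce := fun d => (cend d, bc d)
      act := fun r => (univ : Finset V).biUnion (fun v => (range (q r v)).image (fun b => (v, b)))
      sz := fun r x => s r x.1 x.2
      par_lt := hpar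
      lab_pos := fun d => (hlab d).1
      lab_le := fun d => (hlab d).2
      pe_act := by
        intro d
        rw [memact]
        have := hbp1 d trivial
        simp only [if_pos (hlab d)] at this
        exact this
      ce_act := by
        intro d hd
        rw [memact]
        have := hbc1 d hd
        have h2 : 1 ≤ lab d ∧ lab d < m := ⟨(hlab d).1, hd⟩
        simp only [if_pos h2] at this
        exact this
      sz_lo := fun r _ x _ => (hs r x.1 x.2).1
      sz_hi := fun r _ x _ => (hs r x.1 x.2).2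
      pe_fib := by
        intro j hj1 hj2 x hx
        rw [memact] at hx
        have h2 : 1 ≤ j ∧ j ≤ m := ⟨hj1, hj2⟩
        have := hbp2 (j, x.1) x.2 (by simp only [if_pos h2]; exact hx)
        refine Eq.trans ?_ this
        congr 1
        ext d
        simp only [mem_filter, mem_univ, true_and, Prod.mk.injEq]
        constructor
        · rintro ⟨h, h'⟩
          rw [Prod.ext_iff] at h'
          exact ⟨⟨h, h'.1⟩, h'.2⟩
        · rintro ⟨⟨h, h'⟩, h''⟩
          exact ⟨h, Prod.ext h' h''⟩
      ce_fib := by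
        intro j hj1 hj2 x hx
        rw [memact] at hx
        have h2 : 1 ≤ j ∧ j < m := ⟨hj1, hj2⟩
        have := hbc2 (j, x.1) x.2 (by simp only [if_pos h2]; exact hx)
        refine Eq.trans ?_ this
        congr 1
        ext d
        simp only [mem_filter, mem_univ, true_and, Prod.mk.injEq]
        constructor
        · rintro ⟨h, h'⟩
          rw [Prod.ext_iff] at h'
          exact ⟨by omega, ⟨h, h'.1⟩, h'.2⟩
        · rintro ⟨_, ⟨h, h'⟩, h''⟩
          exact ⟨h, Prod.ext h' h''⟩
      simp' := fun d d' h1 h2 h3 => hsimple d d' h1 h2 h3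
      loop' := fun d => hloop d }
  exact assembly hm S

end Pool.Agent.H9.TE
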