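import Pool.Agent.H9.TE.Blocks
import Pool.Agent.H9.TD.Split
import Pool.Agent.H9.TD.Defs
import Pool.Graph.R_pool_sql_team_668148b0.H402.VMTL

set_option autoImplicit false

/-!
Decompositions of graphs all of whose degrees are large and divisible by `2 m` into copies of a
tree with `m` edges, and of bipartite graphs all of whose degrees are large and divisible by `m`.
-/

namespace Pool.Agent.H9.TE

open Finset Pool.Agent.H9.TD

/-- From a labelling of the edges to the decomposition. -/
theorem tdec_of_labelling {V D : Type} [Fintype V] [DecidableEq V] [Fintype D] [DecidableEq D]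
    (G : SimpleGraph V) {par : ℕ → ℕ} {m : ℕ} (hm : 1 ≤ m)
    (hpar : ∀ j, 1 ≤ j → j ≤ m → par j < j) (edge : D → Sym2 V)
    (edge_mem : ∀ d, edge d ∈ G.edgeSet) (edge_inj : Function.Injective edge)
    (edge_surj : ∀ u v, G.Adj u v → ∃ d, edge d = s(u, v))
    (lab : D → ℕ) (hlab : ∀ d, 1 ≤ lab d ∧ lab d ≤ m) (pend cend : D → V)
    (hends : ∀ d, s(cend d, pend d) = edge d) (N : ℕ → V → ℕ)
    (hp : ∀ j, 1 ≤ j → j ≤ m → ∀ v,
      (univ.filter (fun d => lab d = j ∧ pend d = v)).card = N (par j) v)
    (hc : ∀ j, 1 ≤ j → j < m → ∀ v,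
      (univ.filter (fun d => lab d = j ∧ cend d = v)).card = N j v)
    (hN : ∀ r, r < m → ∀ v, N r v = 0 ∨ 40 * m * LL m ≤ N r v) : TDec par m G := by
  obtain ⟨I, hI, φ, x, d2, d3, d4, d5⟩ := master hm hpar lab hlab pend cend N hp hc hN
    (fun d d' _ h1 h2 => edge_inj (by rw [← hends, ← hends, h1, h2]))
    (fun d h => by
      have h1 := edge_mem d
      rw [← hends, h] at h1
      exact G.irrefl h1)
  refine ⟨I, hI, fun i r => φ r i, d5, ?_, ?_⟩
  · intro i j h1 h2
    obtain ⟨_, h3, h3'⟩ := d2 j h1 h2 i
    have h4 := edge_mem (x j i)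
    rw [← hends, h3, h3'] at h4
    exact h4
  · intro u v huv
    obtain ⟨d, hd'⟩ := edge_surj u v huv
    obtain ⟨i, hi⟩ := d4 (lab d) (hlab d).1 (hlab d).2 d rfl
    refine ⟨(i, lab d), ⟨hlab d, ?_⟩, ?_⟩
    · obtain ⟨_, h3, h3'⟩ := d2 (lab d) (hlab d).1 (hlab d).2 i
      simp only
      rw [← h3, ← h3', hends, hi, hd']
    · rintro ⟨i', r'⟩ ⟨h1, h2⟩
      simp only at h1 h2
      obtain ⟨h6, h3, h3'⟩ := d2 r' h1.1 h1.2 i'
      rw [← h3, ← h3', hends, ← hd'] at h2
      have h4 := edge_inj h2
      have h5 : r' = lab d := by rw [← h4, h6]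
      subst h5
      rw [d3 (lab d) (hlab d).1 (hlab d).2 (h4.trans hi.symm)]

/-- An Eulerian orientation, given by the tails. -/
theorem exists_tail {V : Type} [Fintype V] [DecidableEq V] (G : SimpleGraph V)
    [DecidableRel G.Adj] (a : V → ℕ) (hG : ∀ v, G.degree v = 2 * a v) :
    ∃ t : G.edgeSet → V, (∀ e : G.edgeSet, t e ∈ (e : Sym2 V)) ∧
      ∀ v, (univ.filter (fun e => t e = v)).card = a v := by
  classical
  let t : G.edgeSet → Finset (Σ v : V, Fin (a v)) :=
    fun e => (univ.filter (fun v => v ∈ (e : Sym2 V))).sigma (fun _ => univ)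
  have hall : ∀ s : Finset G.edgeSet, s.card ≤ (s.biUnion t).card := by
    intro s
    let VS : Finset V := univ.filter (fun v => ∃ e ∈ s, v ∈ (e : Sym2 V))
    have h1 : s.biUnion t = VS.sigma (fun _ => univ) := by
      ext ⟨v, i⟩
      simp [t, VS]
    have h2 : ∑ v : V, (s.filter (fun e : G.edgeSet => v ∈ (e : Sym2 V))).card ≤
        ∑ v : V, if v ∈ VS then 2 * a v else 0 := by
      apply Finset.sum_le_sum
      intro v _
      split_ifs with hv
      · rw [← hG v, ← Pool.Agent.H402.VMTL.deg_sub]
        exact Finset.card_le_card (Finset.filter_subset_filter _ (Finset.subset_univ _))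
      · rw [Nat.le_zero, Finset.card_eq_zero, Finset.filter_eq_empty_iff]
        intro e he hve
        exact hv (Finset.mem_filter.2 ⟨Finset.mem_univ _, e, he, hve⟩)
    rw [Pool.Agent.H402.VMTL.dbl, ← Finset.sum_filter, ← Finset.mul_sum] at h2
    have h3 : (univ.filter (fun v => v ∈ VS)) = VS := by simp
    rw [h3] at h2
    rw [h1, Finset.card_sigma]
    simp only [Finset.card_univ, Fintype.card_fin]
    omega
  obtain ⟨f, hf, hft⟩ := (Finset.all_card_le_biUnion_card_iff_exists_injective t).1 hall
  have hbij : Function.Bijective f := by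
    rw [Fintype.bijective_iff_injective_and_card]
    refine ⟨hf, ?_⟩
    have h := Pool.Agent.H402.VMTL.dbl G univ
    have h4 : ∑ v : V, ((univ : Finset G.edgeSet).filter
        (fun e : G.edgeSet => v ∈ (e : Sym2 V))).card = ∑ v : V, 2 * a v := by
      apply Finset.sum_congr rfl
      intro v _
      rw [Pool.Agent.H402.VMTL.deg_sub, hG]
    rw [h4, ← Finset.mul_sum, Finset.card_univ] at h
    rw [Fintype.card_sigma]
    simp only [Fintype.card_fin]
    omega
  refine ⟨fun e => (f e).1, ?_, ?_⟩
  · intro e
    have := hft e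
    simp only [t, Finset.mem_sigma, Finset.mem_filter, Finset.mem_univ, true_and,
      and_true] at this
    exact this
  · intro v
    have h1 : (univ.filter (fun e : G.edgeSet => (f e).1 = v)).image f =
        ({v} : Finset V).sigma (fun _ => univ) := by
      ext ⟨w, i⟩
      simp only [Finset.mem_image, Finset.mem_filter, Finset.mem_univ, true_and,
        Finset.mem_sigma, Finset.mem_singleton, and_true]
      constructor
      · rintro ⟨e, he, h⟩
        rw [h] at he
        exact he
      · intro h
        obtain ⟨e, he⟩ := hbij.2 ⟨w, i⟩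
        exact ⟨e, by rw [he]; exact h, he⟩
    rw [← Finset.card_image_of_injective _ hf, h1, Finset.card_sigma, Finset.sum_singleton,
      Finset.card_univ, Fintype.card_fin]

/-- The numbers of heads. -/
theorem card_head {V : Type} [Fintype V] [DecidableEq V] (G : SimpleGraph V)
    [DecidableRel G.Adj] (t h : G.edgeSet → V) (hth : ∀ e, s(t e, h e) = (e : Sym2 V)) (v : V) :
    (univ.filter (fun e => t e = v)).card + (univ.filter (fun e => h e = v)).card =
      G.degree v := by
  classical
  rw [← Pool.Agent.H402.VMTL.deg_sub, ← card_union_of_disjoint]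
  · congr 1
    ext e
    simp only [mem_union, mem_filter, mem_univ, true_and]
    rw [← hth e, Sym2.mem_iff]
    constructor
    · rintro (h1 | h1)
      · exact Or.inl h1.symm
      · exact Or.inr h1.symm
    · rintro (h1 | h1)
      · exact Or.inl h1.symm
      · exact Or.inr h1.symm
  · rw [disjoint_left]
    intro e h1 h2
    rw [mem_filter] at h1 h2
    have h3 := e.2
    rw [← hth e, h1.2, h2.2] at h3
    exact G.irrefl h3

/-- Graphs all of whose degrees are divisible by `2 m` and large. -/
theorem dec_even {V : Type} [Fintype V] [DecidableEq V] (G : SimpleGraph V)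
    [DecidableRel G.Adj] {m : ℕ} (hm : 1 ≤ m) (par : ℕ → ℕ)
    (hpar : ∀ j, 1 ≤ j → j ≤ m → par j < j) (hdiv : ∀ v, 2 * m ∣ G.degree v)
    (hbig : ∀ v, G.degree v = 0 ∨ 80 * m ^ 2 * LL m ≤ G.degree v) : TDec par m G := by
  classical
  choose k hk using hdiv
  obtain ⟨t, ht1, ht2⟩ := exists_tail G (fun v => m * k v) (fun v => by rw [hk]; ring)
  have hh : ∀ e : G.edgeSet, ∃ w, s(t e, w) = (e : Sym2 V) := fun e => by
    obtain ⟨w, hw⟩ := Sym2.mem_iff_exists.1 (ht1 e)
    exact ⟨w, hw.symm⟩
  choose h hth using hh
  have hcard : ∀ v, (univ.filter (fun e => h e = v)).card = m * k v := by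
    intro v
    have h1 := card_head G t h hth v
    rw [ht2, hk v] at h1
    have h2 : 2 * m * k v = m * k v + m * k v := by ring
    omega
  obtain ⟨c, hc⟩ := T2.split t h m hm (fun v => by rw [ht2]; exact Dvd.intro _ rfl)
    (fun v => by rw [hcard]; exact Dvd.intro _ rfl)
  have hlab : ∀ (e : G.edgeSet) (j : ℕ) (hj : j - 1 < m), 1 ≤ j →
      ((c e : ℕ) + 1 = j ↔ c e = ⟨j - 1, hj⟩) := by
    intro e j hj h1
    rw [Fin.ext_iff]
    simp only
    omega
  refine tdec_of_labelling G hm hpar (fun e : G.edgeSet => (e : Sym2 V)) (fun e => e.2)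
    Subtype.val_injective (fun u v huv => ⟨⟨s(u, v), huv⟩, rfl⟩) (fun e => (c e : ℕ) + 1)
    (fun e => ⟨Nat.le_add_left _ _, (c e).isLt⟩) t h
    (fun e => (Sym2.eq_swap).trans (hth e)) (fun _ v => k v) ?_ ?_ ?_
  · intro j h1 h2 v
    have h3 := (hc ⟨j - 1, by omega⟩).1 v
    rw [ht2] at h3
    have h4 := Nat.eq_of_mul_eq_mul_left hm h3
    refine Eq.trans ?_ h4
    congr 1
    ext e
    simp only [mem_filter, mem_univ, true_and]
    rw [hlab e j (by omega) h1]
  · intro j h1 h2 v
    have h3 := (hc ⟨j - 1, by omega⟩).2 v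
    rw [hcard] at h3
    have h4 := Nat.eq_of_mul_eq_mul_left hm h3
    refine Eq.trans ?_ h4
    congr 1
    ext e
    simp only [mem_filter, mem_univ, true_and]
    rw [hlab e j (by omega) h1]
  · intro r hr v
    rcases hbig v with h1 | h1
    · left
      rw [hk, Nat.mul_eq_zero] at h1
      rcases h1 with h1 | h1
      · omega
      · exact h1
    · right
      rw [hk] at h1
      have h2 : 80 * m ^ 2 * LL m = 2 * m * (40 * m * LL m) := by ring
      rw [h2] at h1
      exact Nat.le_of_mul_le_mul_left h1 (by omega)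

/-- Bipartite graphs all of whose degrees are divisible by `m` and large. -/
theorem dec_bip {V : Type} [Fintype V] [DecidableEq V] (G : SimpleGraph V)
    [DecidableRel G.Adj] {m : ℕ} (hm : 1 ≤ m) (par : ℕ → ℕ) (col : ℕ → Bool)
    (hpar : ∀ j, 1 ≤ j → j ≤ m → par j < j)
    (hcol : ∀ j, 1 ≤ j → j ≤ m → col j ≠ col (par j)) (χ : V → Bool)
    (hχ : ∀ u v, G.Adj u v → χ u ≠ χ v) (hdiv : ∀ v, m ∣ G.degree v)
    (hbig : ∀ v, G.degree v = 0 ∨ 40 * m ^ 2 * LL m ≤ G.degree v) : TDec par m G := by
  classical
  choose k hk using hdiv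
  -- the ends of the edges
  have hth : ∀ e : G.edgeSet, ∃ p : V × V, s(p.1, p.2) = (e : Sym2 V) ∧ χ p.1 = true ∧
      χ p.2 = false := by
    rintro ⟨e, he⟩
    induction e with
    | h u v =>
      have h1 := hχ u v he
      cases hu : χ u
      · have hv : χ v = true := by
          rw [hu] at h1
          exact Bool.eq_true_of_not_eq_false (Ne.symm h1)
        exact ⟨(v, u), Sym2.eq_swap, hv, hu⟩
      · have hv : χ v = false := by
          rw [hu] at h1
          exact Bool.eq_false_of_not_eq_true (Ne.symm h1)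
        exact ⟨(u, v), rfl, hu, hv⟩
  choose p hp1 hp2 hp3 using hth
  have hct : ∀ v, (univ.filter (fun e => (p e).1 = v)).card = if χ v = true then m * k v else 0 := by
    intro v
    have h1 := card_head G (fun e => (p e).1) (fun e => (p e).2) hp1 v
    by_cases hv : χ v = true
    · rw [if_pos hv]
      have h2 : (univ.filter (fun e => (p e).2 = v)) = ∅ := by
        rw [filter_eq_empty_iff]
        intro e _ h
        have := hp3 e
        rw [h, hv] at this
        exact absurd this (by decide)
      rw [h2, card_empty, add_zero, hk v] at h1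
      exact h1
    · rw [if_neg hv, card_eq_zero, filter_eq_empty_iff]
      intro e _ h
      apply hv
      rw [← h]
      exact hp2 e
  have hch : ∀ v, (univ.filter (fun e => (p e).2 = v)).card =
      if χ v = false then m * k v else 0 := by
    intro v
    have h1 := card_head G (fun e => (p e).1) (fun e => (p e).2) hp1 v
    by_cases hv : χ v = false
    · rw [if_pos hv]
      have h2 : (univ.filter (fun e => (p e).1 = v)) = ∅ := by
        rw [filter_eq_empty_iff]
        intro e _ h
        have := hp2 e
        rw [h, hv] at this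
        exact absurd this (by decide)
      rw [h2, card_empty, zero_add, hk v] at h1
      exact h1
    · rw [if_neg hv, card_eq_zero, filter_eq_empty_iff]
      intro e _ h
      apply hv
      rw [← h]
      exact hp3 e
  obtain ⟨c, hc⟩ := T2.split (fun e => (p e).1) (fun e => (p e).2) m hm
    (fun v => by
      rw [hct]
      split_ifs
      · exact Dvd.intro _ rfl
      · exact dvd_zero _)
    (fun v => by
      rw [hch]
      split_ifs
      · exact Dvd.intro _ rfl
      · exact dvd_zero _)
  have hlab : ∀ (e : G.edgeSet) (j : ℕ) (hj : j - 1 < m), 1 ≤ j →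
      ((c e : ℕ) + 1 = j ↔ c e = ⟨j - 1, hj⟩) := by
    intro e j hj h1
    rw [Fin.ext_iff]
    simp only
    omega
  -- the number of edges with a given label at the tail and at the head
  have hnt : ∀ j, 1 ≤ j → j ≤ m → ∀ v, (univ.filter (fun e => (c e : ℕ) + 1 = j ∧
      (p e).1 = v)).card = if χ v = true then k v else 0 := by
    intro j h1 h2 v
    have h3 := (hc ⟨j - 1, by omega⟩).1 v
    rw [hct] at h3
    have h5 : m * (univ.filter (fun d => c d = ⟨j - 1, by omega⟩ ∧ (p d).1 = v)).card =
        m * (if χ v = true then k v else 0) := by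
      rw [h3]
      split_ifs <;> simp
    have h4 := Nat.eq_of_mul_eq_mul_left hm h5
    refine Eq.trans ?_ h4
    congr 1
    ext e
    simp only [mem_filter, mem_univ, true_and]
    rw [hlab e j (by omega) h1]
  have hnh : ∀ j, 1 ≤ j → j ≤ m → ∀ v, (univ.filter (fun e => (c e : ℕ) + 1 = j ∧
      (p e).2 = v)).card = if χ v = false then k v else 0 := by
    intro j h1 h2 v
    have h3 := (hc ⟨j - 1, by omega⟩).2 v
    rw [hch] at h3
    have h5 : m * (univ.filter (fun d => c d = ⟨j - 1, by omega⟩ ∧ (p d).2 = v)).card =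
        m * (if χ v = false then k v else 0) := by
      rw [h3]
      split_ifs <;> simp
    have h4 := Nat.eq_of_mul_eq_mul_left hm h5
    refine Eq.trans ?_ h4
    congr 1
    ext e
    simp only [mem_filter, mem_univ, true_and]
    rw [hlab e j (by omega) h1]
  refine tdec_of_labelling G hm hpar (fun e : G.edgeSet => (e : Sym2 V)) (fun e => e.2)
    Subtype.val_injective (fun u v huv => ⟨⟨s(u, v), huv⟩, rfl⟩) (fun e => (c e : ℕ) + 1)
    (fun e => ⟨Nat.le_add_left _ _, (c e).isLt⟩)
    (fun e => if col (par ((c e : ℕ) + 1)) = true then (p e).1 else (p e).2)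
    (fun e => if col ((c e : ℕ) + 1) = true then (p e).1 else (p e).2)
    ?_ (fun r v => if χ v = col r then k v else 0) ?_ ?_ ?_
  · intro e
    have h1 := hcol ((c e : ℕ) + 1) (Nat.le_add_left _ _) (c e).isLt
    by_cases h2 : col ((c e : ℕ) + 1) = true
    · have h3 : ¬ col (par ((c e : ℕ) + 1)) = true := by
        rw [h2] at h1
        exact fun h => h1 h.symm
      rw [if_pos h2, if_neg h3, hp1]
    · have h3 : col (par ((c e : ℕ) + 1)) = true := by
        rw [Bool.not_eq_true] at h2
        rw [h2] at h1
        exact Bool.eq_true_of_not_eq_false (Ne.symm h1)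
      rw [if_neg h2, if_pos h3, Sym2.eq_swap, hp1]
  · intro j h1 h2 v
    cases hcj : col (par j)
    · rw [← hnh j h1 h2 v]
      congr 1
      ext e
      simp only [mem_filter, mem_univ, true_and]
      refine and_congr_right fun h3 => ?_
      rw [h3, hcj]
      simp
    · rw [← hnt j h1 h2 v]
      congr 1
      ext e
      simp only [mem_filter, mem_univ, true_and]
      refine and_congr_right fun h3 => ?_
      rw [h3, hcj]
      simp
  · intro j h1 h2 v
    cases hcj : col j
    · rw [← hnh j h1 h2.le v]
      congr 1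
      ext e
      simp only [mem_filter, mem_univ, true_and]
      refine and_congr_right fun h3 => ?_
      rw [h3, hcj]
      simp
    · rw [← hnt j h1 h2.le v]
      congr 1
      ext e
      simp only [mem_filter, mem_univ, true_and]
      refine and_congr_right fun h3 => ?_
      rw [h3, hcj]
      simp
  · intro r hr v
    split_ifs
    · rcases hbig v with h1 | h1
      · left
        rw [hk, Nat.mul_eq_zero] at h1
        rcases h1 with h1 | h1
        · omega
        · exact h1
      · right
        rw [hk] at h1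
        have h2 : 40 * m ^ 2 * LL m = m * (40 * m * LL m) := by ring
        rw [h2] at h1
        exact Nat.le_of_mul_le_mul_left h1 (by omega)
    · left; rfl

end Pool.Agent.H9.TE
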