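import Pool.Agent.H9.TE.GH
import Pool.Agent.H9.TD.Glue
import Pool.Agent.H9.TD.TreeLem
import Pool.Agent.H9.TD.Subgraphs

set_option autoImplicit false

/-!
Graphs with large divisible degrees decompose into copies of a tree.
-/

namespace Pool.Agent.H9.TE

open Finset Pool.Agent.H9.TD

theorem bound (m : ℕ) : 80 * m ^ 2 * LL m ≤ 10 ^ 7 * m ^ 5 * (Nat.log 2 m + 1) := by
  have h : 80 * m ^ 2 * LL m = 7680000 * m ^ 5 * (Nat.log 2 m + 1) := by
    unfold LL BB lg
    ring
  rw [h]
  exact Nat.mul_le_mul_right _ (Nat.mul_le_mul_right _ (by norm_num))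

/-- Graphs with large divisible degrees decompose into copies of a tree. -/
theorem core {W : Type} [Fintype W] (T : SimpleGraph W) (hT : T.IsTree) (m : ℕ)
    (hm : T.edgeSet.ncard = m) {V : Type} [Fintype V] (G : SimpleGraph V) [DecidableRel G.Adj]
    (hbig : ∀ v, G.degree v = 0 ∨ 10 ^ 7 * m ^ 5 * (Nat.log 2 m + 1) ≤ G.degree v)
    (hdiv : (∀ v, 2 * m ∣ G.degree v) ∨ (G.Colorable 2 ∧ ∀ v, m ∣ G.degree v)) :
    ∃ (k : ℕ) (H : Fin k → G.Subgraph),
      (∀ i, Nonempty (T ≃g (H i).coe)) ∧ ∀ e ∈ G.edgeSet, ∃! i, e ∈ (H i).edgeSet := by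
  classical
  rcases Nat.eq_zero_or_pos m with h0 | hpos
  · -- no edges
    have hdeg : ∀ v, G.degree v = 0 := by
      intro v
      rcases hdiv with h | ⟨_, h⟩
      · have := h v
        rw [h0] at this
        exact Nat.eq_zero_of_zero_dvd (by simpa using this)
      · have := h v
        rw [h0] at this
        exact Nat.eq_zero_of_zero_dvd this
    refine ⟨0, fun i => i.elim0, fun i => i.elim0, ?_⟩
    intro e he
    exfalso
    induction e with
    | h u v =>
      have h1 : 0 < G.degree u := (G.degree_pos_iff_exists_adj u).2 ⟨v, he⟩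
      rw [hdeg u] at h1
      exact lt_irrefl _ h1
  · obtain ⟨w, par, hpar, hadj⟩ := T4.tree_enum T hT m hm
    apply subgraphs_of_TDec T m w par hpar hadj
    rcases hdiv with h | ⟨hc, h⟩
    · refine dec_even G hpos par hpar h ?_
      intro v
      exact (hbig v).imp id (fun h1 => (bound m).trans h1)
    · obtain ⟨col, _, hcol⟩ := exists_col par m hpar
      obtain ⟨χ⟩ := hc
      refine dec_bip G hpos par col hpar hcol (fun v => decide (χ v = 0)) ?_ h ?_
      · intro u v huv h1
        have h2 := χ.valid huv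
        apply h2
        rw [decide_eq_decide] at h1
        have hu := (χ u).isLt
        have hv := (χ v).isLt
        rw [Fin.ext_iff, Fin.ext_iff] at h1
        rw [Fin.ext_iff]
        simp only [Fin.val_zero] at h1
        omega
      · intro v
        refine (hbig v).imp id (fun h1 => le_trans ?_ ((bound m).trans h1))
        exact Nat.mul_le_mul_right _ (Nat.mul_le_mul_right _ (by norm_num))

end Pool.Agent.H9.TE
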