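import Pool.Agent.H9.TE.Step
import Pool.Agent.H9.TD.Tail

set_option autoImplicit false

/-!
The random choice of the extension: local lemma.
-/

namespace Pool.Agent.H9.TE

open Finset Pool.Agent.Helper635.LLL Pool.Agent.H9.TD

variable {V D : Type} [Fintype D] [DecidableEq D] [DecidableEq V]
variable {m L H : ℕ} {S : Sys V D m L H} {j : ℕ} {I : Type} [Fintype I]

/-- The coordinates of the random choice: the virtual vertices of the parent. -/
abbrev Co (S : Sys V D m L H) (j : ℕ) : Type := {v : V × ℕ // v ∈ S.act (S.par (j + 1))}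

/-- Extending a choice by a constant. -/
def extd {R : ℕ} (c0 : Fin R) (ω : Co S j → Fin R) : V × ℕ → Fin R :=
  fun v => if h : v ∈ S.act (S.par (j + 1)) then ω ⟨v, h⟩ else c0

theorem par_le (S : Sys V D m L H) (hj : j + 1 ≤ m) : S.par (j + 1) ≤ j := by
  have := S.par_lt (j + 1) (by omega) hj
  omega

/-- The coordinate of a partial copy. -/
def co (s : St S j I) (hj : j + 1 ≤ m) (i : I) : Co S j :=
  ⟨s.rho (S.par (j + 1)) i, s.rho_act _ (par_le S hj) i⟩

/-- The set of choices at `t` for which some copy at `t` gets an edge with the property `Q`. -/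
noncomputable def Bad {s : St S j I} {R : ℕ} (e : Ext s R) (Q : I → D → Prop) (t : Co S j) :
    Finset (Fin R) := by
  classical
  exact univ.filter (fun c => ∃ i, s.rho (S.par (j + 1)) i = t.1 ∧ Q i (e.N i c))

theorem mem_Bad {s : St S j I} {R : ℕ} {e : Ext s R} {Q : I → D → Prop} {t : Co S j}
    {c : Fin R} : c ∈ Bad e Q t ↔ ∃ i, s.rho (S.par (j + 1)) i = t.1 ∧ Q i (e.N i c) := by
  classical
  unfold Bad
  rw [mem_filter]
  exact ⟨fun h => h.2, fun h => ⟨mem_univ _, h⟩⟩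

theorem y_extd {s : St S j I} {R : ℕ} (e : Ext s R) (hj : j + 1 ≤ m) (c0 : Fin R)
    (ω : Co S j → Fin R) (i : I) : e.y (extd c0 ω) i = e.N i (ω (co s hj i)) := by
  unfold Ext.y extd co
  rw [dif_pos (s.rho_act _ (par_le S hj) i)]

theorem same_edge {s : St S j I} {R : ℕ} (e : Ext s R) {i i' : I} {c c' : Fin R}
    (h : s.rho (S.par (j + 1)) i = s.rho (S.par (j + 1)) i')
    (h' : (S.ce (e.N i c)).1 = (S.ce (e.N i' c')).1) : e.N i c = e.N i' c' := by
  refine S.simp' _ _ ?_ ?_ h'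
  · rw [e.lab, e.lab]
  · rw [e.pe, e.pe, h]

theorem count_le {s : St S j I} {R : ℕ} (e : Ext s R) (hj : j + 1 ≤ m) (c0 : Fin R)
    (Q : I → D → Prop) [∀ i d, Decidable (Q i d)] (z : V) (hQ : ∀ i d, Q i d → (S.ce d).1 = z)
    (ω : Co S j → Fin R)
    (U : Finset (Co S j)) (hU : ∀ i, Q i (e.y (extd c0 ω) i) → co s hj i ∈ U) :
    (univ.filter (fun i => Q i (e.y (extd c0 ω) i))).card ≤
      (U.filter (fun t => ω t ∈ Bad e Q t)).card := by
  classical
  refine card_le_card_of_injOn (fun i => co s hj i) ?_ ?_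
  · intro i hi
    simp only [coe_filter, mem_univ, true_and, Set.mem_ofPred_eq] at hi ⊢
    refine ⟨hU i hi, ?_⟩
    rw [mem_Bad]
    refine ⟨i, rfl, ?_⟩
    rw [y_extd e hj] at hi
    exact hi
  · intro i hi i' hi' h
    simp only [coe_filter, mem_univ, true_and, Set.mem_ofPred_eq] at hi hi'
    have h1 : s.rho (S.par (j + 1)) i = s.rho (S.par (j + 1)) i' := congrArg Subtype.val h
    have h2 := hQ _ _ hi
    have h3 := hQ _ _ hi'
    apply e.y_inj (extd c0 ω)
    exact same_edge e h1 (h2.trans h3.symm)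

theorem card_Bad {s : St S j I} {R : ℕ} (e : Ext s R)
    (Q : I → D → Prop) (z : V) (hQ : ∀ i d, Q i d → (S.ce d).1 = z) (t : Co S j)
    (Q' : I → Prop) [DecidablePred Q'] (hQ' : ∀ i c, Q i (e.N i c) → Q' i) :
    (Bad e Q t).card ≤ (univ.filter (fun i => s.rho (S.par (j + 1)) i = t.1 ∧ Q' i)).card := by
  classical
  refine card_le_card_of_forall_subsingleton
    (fun c i => s.rho (S.par (j + 1)) i = t.1 ∧ Q i (e.N i c)) ?_ ?_
  · intro c hc
    obtain ⟨i, h1, h2⟩ := mem_Bad.1 hc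
    exact ⟨i, by rw [mem_filter]; exact ⟨mem_univ _, h1, hQ' _ _ h2⟩, h1, h2⟩
  · intro i _ c hc c' hc'
    apply e.injc i
    exact same_edge e rfl ((hQ _ _ hc.2.2).trans (hQ _ _ hc'.2.2).symm)

/-- The coordinates that matter for the virtual vertex `v` of the role `r'`. -/
noncomputable def dep (s : St S j I) (r' : ℕ) (v : V × ℕ) : Finset (Co S j) := by
  classical
  exact univ.filter (fun t => if r' = j + 1 then ∃ d, S.lab d = j + 1 ∧ S.pe d = t.1 ∧ S.ce d = v
    else ∃ i, s.rho r' i = v ∧ s.rho (S.par (j + 1)) i = t.1)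

theorem mem_dep_new {s : St S j I} {v : V × ℕ} {t : Co S j} :
    t ∈ dep s (j + 1) v ↔ ∃ d, S.lab d = j + 1 ∧ S.pe d = t.1 ∧ S.ce d = v := by
  classical
  unfold dep
  rw [mem_filter]
  simp

theorem mem_dep_old {s : St S j I} {r' : ℕ} (hr' : r' ≤ j) {v : V × ℕ} {t : Co S j} :
    t ∈ dep s r' v ↔ ∃ i, s.rho r' i = v ∧ s.rho (S.par (j + 1)) i = t.1 := by
  classical
  unfold dep
  rw [mem_filter, if_neg (by omega)]
  simp

theorem card_dep (s : St S j I) (hj : j + 1 < m) {r' : ℕ} (hr' : r' ≤ j + 1) {v : V × ℕ}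
    (hv : v ∈ S.act r') : (dep s r' v).card ≤ H := by
  classical
  rcases Nat.lt_or_ge j r' with h | h
  · obtain rfl : r' = j + 1 := by omega
    have e1 := S.ce_fib (j + 1) (by omega) hj v hv
    refine le_trans ?_ (e1.le.trans (S.sz_hi (j + 1) hj v hv))
    refine card_le_card_of_forall_subsingleton (fun (t : Co S j) d => S.pe d = t.1) ?_ ?_
    · intro t ht
      rw [mem_dep_new] at ht
      obtain ⟨d, h1, h2, h3⟩ := ht
      exact ⟨d, by rw [mem_filter]; exact ⟨mem_univ _, h1, h3⟩, h2⟩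
    · intro d _ t ht t' ht'
      exact Subtype.ext (ht.2.symm.trans ht'.2)
  · have e1 := s.rho_fib r' h v hv
    refine le_trans ?_ (e1.le.trans (S.sz_hi r' (by omega) v hv))
    refine card_le_card_of_forall_subsingleton
      (fun (t : Co S j) i => s.rho (S.par (j + 1)) i = t.1) ?_ ?_
    · intro t ht
      rw [mem_dep_old h] at ht
      obtain ⟨i, h1, h2⟩ := ht
      exact ⟨i, by rw [mem_filter]; exact ⟨mem_univ _, h1⟩, h2⟩
    · intro i _ t ht t' ht'
      exact Subtype.ext (ht.2.symm.trans ht'.2)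

/-- The indices of the bad events. -/
noncomputable def Idx (S : Sys V D m L H) (j : ℕ) : Finset (ℕ × (V × ℕ)) :=
  (range (j + 2)).biUnion (fun r' => (S.act r').image (fun v => (r', v)))

theorem mem_Idx {p : ℕ × (V × ℕ)} : p ∈ Idx S j ↔ p.1 ≤ j + 1 ∧ p.2 ∈ S.act p.1 := by
  unfold Idx
  rw [mem_biUnion]
  constructor
  · rintro ⟨r', hr', h⟩
    rw [mem_image] at h
    obtain ⟨v, hv, rfl⟩ := h
    rw [mem_range] at hr'
    exact ⟨by simp only; omega, hv⟩
  · rintro ⟨h1, h2⟩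
    exact ⟨p.1, by rw [mem_range]; omega, mem_image.2 ⟨p.2, h2, rfl⟩⟩

theorem card_idx_coord (s : St S j I) (hj : j + 1 < m) (t : Co S j) :
    ((Idx S j).filter (fun p => t ∈ dep s p.1 p.2)).card ≤ m * H := by
  classical
  have hr := par_le S (show j + 1 ≤ m by omega)
  have h1 : (Idx S j).filter (fun p => t ∈ dep s p.1 p.2) ⊆
      ((range (j + 1)) ×ˢ (univ.filter (fun i => s.rho (S.par (j + 1)) i = t.1))).image
        (fun q => (q.1, s.rho q.1 q.2)) ∪
      (univ.filter (fun d => S.lab d = j + 1 ∧ S.pe d = t.1)).image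
        (fun d => (j + 1, S.ce d)) := by
    intro p hp
    rw [mem_filter, mem_Idx] at hp
    obtain ⟨⟨h2, h3⟩, h4⟩ := hp
    rw [mem_union]
    rcases Nat.lt_or_ge j p.1 with h | h
    · right
      have h5 : p.1 = j + 1 := by omega
      rw [h5, mem_dep_new] at h4
      obtain ⟨d, a1, a2, a3⟩ := h4
      rw [mem_image]
      refine ⟨d, by rw [mem_filter]; exact ⟨mem_univ _, a1, a2⟩, ?_⟩
      rw [a3, ← h5]
    · left
      rw [mem_dep_old h] at h4
      obtain ⟨i, a1, a2⟩ := h4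
      rw [mem_image]
      refine ⟨(p.1, i), ?_, ?_⟩
      · rw [mem_product, mem_range, mem_filter]
        exact ⟨by simp only; omega, mem_univ _, a2⟩
      · simp only [a1]
  refine (card_le_card h1).trans ((card_union_le _ _).trans ?_)
  have h2 := card_image_le (s := (range (j + 1)) ×ˢ
    (univ.filter (fun i => s.rho (S.par (j + 1)) i = t.1))) (f := fun q => (q.1, s.rho q.1 q.2))
  have h3 := card_image_le (s := univ.filter (fun d => S.lab d = j + 1 ∧ S.pe d = t.1))
    (f := fun d => (j + 1, S.ce d))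
  rw [card_product, card_range, s.rho_fib _ hr _ t.2] at h2
  rw [S.pe_fib (j + 1) (by omega) (by omega) _ t.2] at h3
  have h5 := S.sz_hi (S.par (j + 1)) (by omega) _ t.2
  have h4 : (j + 1) * H + H ≤ m * H := by
    have : (j + 2) * H ≤ m * H := Nat.mul_le_mul_right _ (by omega)
    linarith
  have h6 : (j + 1) * S.sz (S.par (j + 1)) t.1 ≤ (j + 1) * H := Nat.mul_le_mul_left _ h5
  omega

theorem card_conflicts (s : St S j I) (hj : j + 1 < m) (p : ℕ × (V × ℕ)) (hp : p ∈ Idx S j)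
    (F : Finset (ℕ × (V × ℕ))) (hF : F ⊆ Idx S j)
    (hF' : ∀ q ∈ F, ¬ Disjoint (dep s p.1 p.2) (dep s q.1 q.2)) : F.card ≤ H * (m * H) := by
  classical
  rw [mem_Idx] at hp
  have h1 : F ⊆
      (dep s p.1 p.2).biUnion (fun t => (Idx S j).filter (fun q => t ∈ dep s q.1 q.2)) := by
    intro q hq
    have hq' := hF' q hq
    rw [not_disjoint_iff] at hq'
    obtain ⟨t, h2, h3⟩ := hq'
    rw [mem_biUnion]
    exact ⟨t, h2, by rw [mem_filter]; exact ⟨hF hq, h3⟩⟩
  refine (card_le_card h1).trans (card_biUnion_le.trans ?_)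
  refine (sum_le_sum fun t _ => card_idx_coord s hj t).trans ?_
  rw [sum_const, smul_eq_mul]
  exact Nat.mul_le_mul_right _ (card_dep s hj hp.1 hp.2)


/-- The bad event. -/
def BadEv {s : St S j I} {R : ℕ} (e : Ext s R) (hj : j + 1 < m) (c0 : Fin R) (Δ' : ℝ)
    (p : ℕ × (V × ℕ)) (ω : Co S j → Fin R) : Prop :=
  ∃ y, y ≠ p.2.1 ∧ Δ' < ((e.next (extd c0 ω) hj).cnt p.1 p.2 y : ℝ)

theorem next_rho_new {s : St S j I} {R : ℕ} (e : Ext s R) (hj : j + 1 < m)
    (ω : V × ℕ → Fin R) (i : I) : (e.next ω hj).rho (j + 1) i = S.ce (e.y ω i) := by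
  show (if j + 1 = j + 1 then _ else _) = _
  rw [if_pos rfl]

theorem next_rho_old {s : St S j I} {R : ℕ} (e : Ext s R) (hj : j + 1 < m)
    (ω : V × ℕ → Fin R) {r : ℕ} (hr : r ≤ j) (i : I) : (e.next ω hj).rho r i = s.rho r i := by
  show (if r = j + 1 then _ else _) = _
  rw [if_neg (by omega)]

theorem badEv_dep {s : St S j I} {R : ℕ} (e : Ext s R) (hj : j + 1 < m) (c0 : Fin R) (Δ' : ℝ)
    (p : ℕ × (V × ℕ)) (hp : p ∈ Idx S j) :
    Helper635.LLL.DependsOn (BadEv e hj c0 Δ' p) (dep s p.1 p.2) := by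
  classical
  rw [mem_Idx] at hp
  rintro ω ω' h ⟨y, hy, h1⟩
  refine ⟨y, hy, h1.trans_le ?_⟩
  have key : ∀ i, (e.next (extd c0 ω) hj).rho p.1 i = p.2 →
      e.y (extd c0 ω) i = e.y (extd c0 ω') i := by
    intro i hi
    rw [y_extd e (by omega), y_extd e (by omega)]
    rw [h (co s (by omega) i)]
    rcases Nat.lt_or_ge j p.1 with h2 | h2
    · have h5 : p.1 = j + 1 := by omega
      rw [h5, next_rho_new] at hi
      rw [h5, mem_dep_new]
      exact ⟨_, e.lab _ _, e.pe _ _, hi⟩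
    · rw [next_rho_old e hj _ h2] at hi
      rw [mem_dep_old h2]
      exact ⟨i, hi, rfl⟩
  have key2 : ∀ i, (e.next (extd c0 ω) hj).rho p.1 i = p.2 → ∀ r ≤ j + 1,
      (e.next (extd c0 ω) hj).rho r i = (e.next (extd c0 ω') hj).rho r i := by
    intro i hi r hr
    rcases Nat.lt_or_ge j r with h2 | h2
    · obtain rfl : r = j + 1 := by omega
      rw [next_rho_new, next_rho_new, key i hi]
    · rw [next_rho_old e hj _ h2, next_rho_old e hj _ h2]
  have hsub : (univ.filter (fun i => (e.next (extd c0 ω) hj).rho p.1 i = p.2 ∧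
      ∃ r' ≤ j + 1, ((e.next (extd c0 ω) hj).rho r' i).1 = y)) ⊆
      (univ.filter (fun i => (e.next (extd c0 ω') hj).rho p.1 i = p.2 ∧
      ∃ r' ≤ j + 1, ((e.next (extd c0 ω') hj).rho r' i).1 = y)) := by
    intro i hi
    rw [mem_filter] at hi ⊢
    obtain ⟨_, h2, r', h3, h4⟩ := hi
    refine ⟨mem_univ _, ?_, r', h3, ?_⟩
    · rw [← key2 i h2 p.1 hp.1]; exact h2
    · rw [← key2 i h2 r' h3]; exact h4
  have := card_le_card hsub
  unfold St.cnt
  exact_mod_cast this


end Pool.Agent.H9.TE
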