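import Pool.Agent.H9.TE.Sys
import Pool.Agent.H9.TD.Matchings

set_option autoImplicit false

/-!
One step of the assembly: the edges at the parent of the new vertex are matched with the partial
copies at the parent, in many ways.
-/

namespace Pool.Agent.H9.TE

open Finset Pool.Agent.H9.TD.T1

variable {V D : Type} [Fintype D] [DecidableEq D] [DecidableEq V]
variable {m L H : ℕ} {S : Sys V D m L H} {j : ℕ} {I : Type} [Fintype I]

/-- Many ways of extending the copies. -/
structure Ext (s : St S j I) (R : ℕ) where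
  N : I → Fin R → D
  lab : ∀ i c, S.lab (N i c) = j + 1
  pe : ∀ i c, S.pe (N i c) = s.rho (S.par (j + 1)) i
  new : ∀ i c, ∀ r' ≤ j, (s.rho r' i).1 ≠ (S.ce (N i c)).1
  injc : ∀ i c c', N i c = N i c' → c = c'
  inji : ∀ c i i', N i c = N i' c → i = i'

theorem exists_ext (s : St S j I) (hj : j + 1 ≤ m) (dd : ℕ) (h1 : m ≤ dd) (h3 : 3 * dd ≤ L)
    (Δ : ℝ) (hs : s.Spread Δ) (hΔ : Δ ≤ dd) :
    Nonempty (Ext s (L - 2 * dd)) := by
  classical
  have hr : S.par (j + 1) ≤ j := by
    have := S.par_lt (j + 1) (by omega) hj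
    omega
  -- matchings at every virtual vertex
  have key : ∀ v ∈ S.act (S.par (j + 1)), ∃ N : Fin (L - 2 * dd) → I → D,
      (∀ c, ∀ i ∈ univ.filter (fun i => s.rho (S.par (j + 1)) i = v),
        N c i ∈ univ.filter (fun d => S.lab d = j + 1 ∧ S.pe d = v) ∧
          ¬ (∃ r' ≤ j, (s.rho r' i).1 = (S.ce (N c i)).1)) ∧
      (∀ c, Set.InjOn (N c) (univ.filter (fun i => s.rho (S.par (j + 1)) i = v) : Finset I)) ∧
      (∀ c c', c ≠ c' → ∀ i ∈ univ.filter (fun i => s.rho (S.par (j + 1)) i = v),
        N c i ≠ N c' i) := by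
    intro v hv
    have hlo := S.sz_lo _ (show S.par (j + 1) < m by omega) v hv
    have hle : L - 2 * dd ≤ S.sz (S.par (j + 1)) v - 2 * dd := by omega
    suffices hM : ∃ N : Fin (S.sz (S.par (j + 1)) v - 2 * dd) → I → D,
        (∀ c, ∀ i ∈ univ.filter (fun i => s.rho (S.par (j + 1)) i = v),
          N c i ∈ univ.filter (fun d => S.lab d = j + 1 ∧ S.pe d = v) ∧
            ¬ (∃ r' ≤ j, (s.rho r' i).1 = (S.ce (N c i)).1)) ∧
        (∀ c, Set.InjOn (N c) (univ.filter (fun i => s.rho (S.par (j + 1)) i = v) : Finset I)) ∧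
        (∀ c c', c ≠ c' → ∀ i ∈ univ.filter (fun i => s.rho (S.par (j + 1)) i = v),
          N c i ≠ N c' i) by
      obtain ⟨N, hN1, hN2, hN3⟩ := hM
      refine ⟨fun c => N (Fin.castLE hle c), fun c => hN1 _, fun c => hN2 _, fun c c' hne => ?_⟩
      exact hN3 _ _ (fun h => hne (Fin.castLE_injective hle h))
    refine matchings (univ.filter (fun i => s.rho (S.par (j + 1)) i = v))
      (univ.filter (fun d => S.lab d = j + 1 ∧ S.pe d = v)) (S.sz (S.par (j + 1)) v) dd
      (s.rho_fib _ hr v hv) (S.pe_fib (j + 1) (by omega) hj v hv)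
      (fun i d => ∃ r' ≤ j, (s.rho r' i).1 = (S.ce d).1) ?_ ?_ (h3.trans hlo)
    · intro i _
      have hsub : ((univ.filter (fun d => S.lab d = j + 1 ∧ S.pe d = v)).filter
          (fun d => ∃ r' ≤ j, (s.rho r' i).1 = (S.ce d).1)).card ≤
          ((range (j + 1)).image (fun r' => (s.rho r' i).1)).card := by
        refine card_le_card_of_injOn (fun d => (S.ce d).1) ?_ ?_
        · intro d hd
          simp only [coe_filter, mem_filter, mem_univ, true_and, Set.mem_ofPred_eq] at hd
          obtain ⟨_, r', hr', he⟩ := hd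
          rw [coe_image]
          exact ⟨r', by simpa using Nat.lt_succ_of_le hr', he⟩
        · intro d hd d' hd' he
          simp only [coe_filter, mem_filter, mem_univ, true_and, Set.mem_ofPred_eq] at hd hd'
          exact S.simp' d d' (hd.1.1.trans hd'.1.1.symm) (by rw [hd.1.2, hd'.1.2]) he
      have h2 := card_image_le (s := range (j + 1)) (f := fun r' => (s.rho r' i).1)
      rw [card_range] at h2
      omega
    · intro d hd
      rw [mem_filter] at hd
      have hne : (S.ce d).1 ≠ v.1 := by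
        rw [← hd.2.2]
        exact (S.loop' d).symm
      have h4 := hs _ hr v _ hne
      have h5 : ((univ.filter (fun i => s.rho (S.par (j + 1)) i = v)).filter
          (fun i => ∃ r' ≤ j, (s.rho r' i).1 = (S.ce d).1)).card =
          s.cnt (S.par (j + 1)) v (S.ce d).1 := by
        rw [St.cnt, filter_filter]
      rw [h5]
      exact_mod_cast h4.trans hΔ
  choose N hN1 hN2 hN3 using key
  refine ⟨⟨fun i c => N (s.rho (S.par (j + 1)) i) (s.rho_act _ hr i) c i, ?_, ?_, ?_, ?_, ?_⟩⟩
  · intro i c
    have := (hN1 _ (s.rho_act _ hr i) c i (by simp)).1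
    rw [mem_filter] at this
    exact this.2.1
  · intro i c
    have := (hN1 _ (s.rho_act _ hr i) c i (by simp)).1
    rw [mem_filter] at this
    exact this.2.2
  · intro i c r' hr' he
    exact (hN1 _ (s.rho_act _ hr i) c i (by simp)).2 ⟨r', hr', he⟩
  · intro i c c' h
    by_contra hne
    exact hN3 _ (s.rho_act _ hr i) c c' hne i (by simp) h
  · intro c i i' h
    have e1 := (hN1 _ (s.rho_act _ hr i) c i (by simp)).1
    have e2 := (hN1 _ (s.rho_act _ hr i') c i' (by simp)).1
    rw [mem_filter] at e1 e2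
    have e3 : s.rho (S.par (j + 1)) i = s.rho (S.par (j + 1)) i' := by
      rw [← e1.2.2, ← e2.2.2, h]
    refine hN2 _ (s.rho_act _ hr i) c (by simp) (by simp [e3]) ?_
    rw [h]
    simp only [e3]

/-- The chosen extension. -/
def Ext.y {s : St S j I} {R : ℕ} (e : Ext s R) (ω : V × ℕ → Fin R) (i : I) : D :=
  e.N i (ω (s.rho (S.par (j + 1)) i))

theorem Ext.y_inj {s : St S j I} {R : ℕ} (e : Ext s R) (ω : V × ℕ → Fin R) :
    Function.Injective (e.y ω) := by
  intro i i' h
  have h1 : S.pe (e.y ω i) = S.pe (e.y ω i') := by rw [h]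
  unfold Ext.y at h h1
  rw [e.pe, e.pe] at h1
  rw [← h1] at h
  exact e.inji _ _ _ h

theorem Ext.y_surj {s : St S j I} {R : ℕ} (e : Ext s R) (ω : V × ℕ → Fin R) (hj : j + 1 ≤ m)
    (d : D) (hd : S.lab d = j + 1) : ∃ i, e.y ω i = d := by
  classical
  have hr : S.par (j + 1) ≤ j := by
    have := S.par_lt (j + 1) (by omega) hj
    omega
  have hact : S.pe d ∈ S.act (S.par (j + 1)) := by
    rw [← hd]
    exact S.pe_act d
  set P := univ.filter (fun i => s.rho (S.par (j + 1)) i = S.pe d) with hP
  set Q := univ.filter (fun d' => S.lab d' = j + 1 ∧ S.pe d' = S.pe d) with hQ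
  have h1 : P.card = S.sz (S.par (j + 1)) (S.pe d) := s.rho_fib _ hr _ hact
  have h2 : Q.card = S.sz (S.par (j + 1)) (S.pe d) := S.pe_fib (j + 1) (by omega) hj _ hact
  have h3 : P.image (e.y ω) = Q := by
    refine eq_of_subset_of_card_le ?_ ?_
    · intro d' hd'
      obtain ⟨i, hi, rfl⟩ := mem_image.1 hd'
      rw [hP, mem_filter] at hi
      rw [hQ, mem_filter]
      refine ⟨mem_univ _, e.lab _ _, ?_⟩
      rw [← hi.2]
      exact e.pe _ _
    · rw [card_image_of_injective _ (e.y_inj ω), h1, h2]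
  have h4 : d ∈ Q := by rw [hQ, mem_filter]; exact ⟨mem_univ _, hd, rfl⟩
  rw [← h3, mem_image] at h4
  obtain ⟨i, _, hi⟩ := h4
  exact ⟨i, hi⟩

/-- The extended system of partial copies. -/
def Ext.next {s : St S j I} {R : ℕ} (e : Ext s R) (ω : V × ℕ → Fin R) (hj : j + 1 < m) :
    St S (j + 1) I where
  rho r i := if r = j + 1 then S.ce (e.y ω i) else s.rho r i
  x r i := if r = j + 1 then e.y ω i else s.x r i
  rho_act r hr i := by
    by_cases h : r = j + 1
    · rw [if_pos h]
      have h1 := S.ce_act (e.y ω i)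
      have h2 : S.lab (e.y ω i) = j + 1 := e.lab _ _
      rw [h2] at h1
      rw [h]
      exact h1 hj
    · rw [if_neg h]
      exact s.rho_act r (by omega) i
  rho_fib r hr v hv := by
    by_cases h : r = j + 1
    · subst h
      simp only [if_true]
      refine Eq.trans ?_ (S.ce_fib (j + 1) (by omega) hj v hv)
      refine card_bij (fun i _ => e.y ω i) ?_ ?_ ?_
      · intro i hi
        rw [mem_filter] at hi ⊢
        exact ⟨mem_univ _, e.lab _ _, hi.2⟩
      · intro i _ i' _ h
        exact e.y_inj ω h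
      · intro d hd
        rw [mem_filter] at hd
        obtain ⟨i, hi⟩ := e.y_surj ω (by omega) d hd.2.1
        refine ⟨i, ?_, hi⟩
        rw [mem_filter]
        exact ⟨mem_univ _, by rw [hi]; exact hd.2.2⟩
    · simp only [if_neg h]
      exact s.rho_fib r (by omega) v hv
  x_lab r h1 hr i := by
    by_cases h : r = j + 1
    · rw [if_pos h, h]; exact e.lab _ _
    · rw [if_neg h]; exact s.x_lab r h1 (by omega) i
  x_pe r h1 hr i := by
    have hp := S.par_lt r h1 (by omega)
    have hp' : S.par r ≠ j + 1 := by omega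
    rw [if_neg hp']
    by_cases h : r = j + 1
    · rw [if_pos h, h]; exact e.pe _ _
    · rw [if_neg h]; exact s.x_pe r h1 (by omega) i
  x_ce r h1 hr i := by
    by_cases h : r = j + 1
    · rw [if_pos h, if_pos h]
    · rw [if_neg h, if_neg h]; exact s.x_ce r h1 (by omega) i
  x_inj r h1 hr := by
    by_cases h : r = j + 1
    · simp only [if_pos h]; exact e.y_inj ω
    · simp only [if_neg h]; exact s.x_inj r h1 (by omega)
  x_surj r h1 hr d hd := by
    by_cases h : r = j + 1
    · simp only [if_pos h]; exact e.y_surj ω (by omega) d (by rw [hd, h])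
    · simp only [if_neg h]; exact s.x_surj r h1 (by omega) d hd
  inj i r hr r' hr' h := by
    by_cases h1 : r = j + 1 <;> by_cases h2 : r' = j + 1
    · rw [h1, h2]
    · rw [if_pos h1, if_neg h2] at h
      exact absurd h.symm (e.new i _ r' (by omega))
    · rw [if_neg h1, if_pos h2] at h
      exact absurd h (e.new i _ r (by omega))
    · rw [if_neg h1, if_neg h2] at h
      exact s.inj i r (by omega) r' (by omega) h

end Pool.Agent.H9.TE
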